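import Pool.Agent.W2helper76.FR.Stm
import Pool.Agent.NH29.GN.Stb
import Pool.Agent.H135R2.VS.Der
import Pool.Agent.H297R2.ThmJs

/-!
# Few relations with few terms, piece U: the ultrapower
-/

set_option autoImplicit false

namespace Pool.Agent.W2helper3.FR

open Filter Pool.Agent.W2helper76.FR Pool.Agent.NH29.GN.Stb

noncomputable section

/-- the ultrafilter -/
def UU : Ultrafilter ℕ := hyperfilter ℕ

/-- a family of elements of a finite type is constant on a set of the ultrafilter -/
theorem const_of {T : Type} [Finite T] (e : ℕ → T) : ∃ i, ∀ᶠ k in (UU : Filter ℕ), e k = i := by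
  by_contra hcon
  push Not at hcon
  have h3 : ∀ᶠ F in (UU : Filter ℕ), ∀ i : T, e F ≠ i := by
    rw [Filter.eventually_all]
    intro i
    have := hcon i
    exact this
  obtain ⟨F, hF⟩ := h3.exists
  exact hF (e F) rfl

/-- the constants -/
def KU : Type := (UU : Filter ℕ).Germ QB

/-- the big field -/
def CU : Type := (UU : Filter ℕ).Germ ℂ

instance : Field KU := inferInstanceAs (Field ((UU : Filter ℕ).Germ QB))

instance : Field CU := inferInstanceAs (Field ((UU : Filter ℕ).Germ ℂ))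

instance : Algebra KU CU := RingHom.toAlgebra (gm UU QB ℂ)

/-- the class of a family of algebraic numbers -/
def pk : (ℕ → QB) →+* KU := pr UU QB

/-- the class of a family of numbers -/
def pc : (ℕ → ℂ) →+* CU := pr UU ℂ

theorem alg_pk (c : ℕ → QB) : algebraMap KU CU (pk c) = pc (fun i => ((c i : QB) : ℂ)) := rfl

theorem pk_surj (a : KU) : ∃ f : ℕ → QB, a = pk f := pr_surj UU a

theorem pc_surj (a : CU) : ∃ f : ℕ → ℂ, a = pc f := pr_surj UU a

theorem pk_eq {f g : ℕ → QB} : pk f = pk g ↔ ∀ᶠ i in (UU : Filter ℕ), f i = g i := pr_eq UU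

theorem pc_eq {f g : ℕ → ℂ} : pc f = pc g ↔ ∀ᶠ i in (UU : Filter ℕ), f i = g i := pr_eq UU

theorem pk_eq_zero {f : ℕ → QB} : pk f = 0 ↔ ∀ᶠ i in (UU : Filter ℕ), f i = 0 := pr_eq_zero UU

theorem pc_eq_zero {f : ℕ → ℂ} : pc f = 0 ↔ ∀ᶠ i in (UU : Filter ℕ), f i = 0 := pr_eq_zero UU

theorem pc_mul (f g : ℕ → ℂ) : pc (fun i => f i * g i) = pc f * pc g := pr_mul UU f g

theorem pc_div (f g : ℕ → ℂ) : pc (fun i => f i / g i) = pc f / pc g := rfl

theorem pc_add (f g : ℕ → ℂ) : pc (fun i => f i + g i) = pc f + pc g := map_add pc f g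

theorem pc_sum {J : Type} (S : Finset J) (f : J → ℕ → ℂ) :
    pc (fun i => ∑ j ∈ S, f j i) = ∑ j ∈ S, pc (f j) := pr_sum UU S f

theorem isAlgClosed_QB : IsAlgClosed QB := (algebraicClosure.isAlgClosure ℚ ℂ).isAlgClosed

instance : IsAlgClosed KU := by
  have := isAlgClosed_QB
  exact closed UU QB

instance : IsAlgClosed CU := closed UU ℂ

instance : CharZero KU := by
  have h : CharZero ((UU : Filter ℕ).Germ QB) := by
    rw [← ((pr UU QB).comp (Pi.constRingHom ℕ QB)).charZero_iff
      ((pr UU QB).comp (Pi.constRingHom ℕ QB)).injective]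
    infer_instance
  exact h

/-- the derivation given by a family of derivations -/
def dg (D : ℕ → Derivation QB ℂ ℂ) : Derivation KU CU CU := by
  let f : CU → CU := fun x =>
    Germ.map₂ (fun (D : Derivation QB ℂ ℂ) (x : ℂ) => D x)
      ((D : ℕ → Derivation QB ℂ ℂ) : (UU : Filter ℕ).Germ (Derivation QB ℂ ℂ)) x
  have hf : ∀ x : ℕ → ℂ, f (pc x) = pc (fun i => D i (x i)) := fun x => rfl
  refine Derivation.mk' (R := KU)
    { toFun := f
      map_add' := ?_
      map_smul' := ?_ } ?_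
  · intro a b
    obtain ⟨a, rfl⟩ := pc_surj a
    obtain ⟨b, rfl⟩ := pc_surj b
    rw [← map_add, hf, hf, hf, ← map_add]
    congr 1
    funext i
    rw [Pi.add_apply, Pi.add_apply, map_add]
  · intro a b
    obtain ⟨a, rfl⟩ := pk_surj a
    obtain ⟨b, rfl⟩ := pc_surj b
    rw [Algebra.smul_def, RingHom.id_apply, Algebra.smul_def, alg_pk, ← map_mul, hf, hf, ← map_mul]
    congr 1
    funext i
    show D i ((a i : ℂ) * b i) = (a i : ℂ) * D i (b i)
    have := (D i).map_smul (a i) (b i)
    rw [Algebra.smul_def, Algebra.smul_def] at this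
    exact this
  · intro a b
    obtain ⟨a, rfl⟩ := pc_surj a
    obtain ⟨b, rfl⟩ := pc_surj b
    show f (pc a * pc b) = pc a • f (pc b) + pc b • f (pc a)
    rw [← map_mul, hf, hf, hf, smul_eq_mul, smul_eq_mul, ← map_mul, ← map_mul, ← map_add]
    congr 1
    funext i
    show D i (a i * b i) = a i * D i (b i) + b i * D i (a i)
    rw [Derivation.leibniz]
    rfl

theorem dg_pc (D : ℕ → Derivation QB ℂ ℂ) (x : ℕ → ℂ) :
    dg D (pc x) = pc (fun i => D i (x i)) := rfl

/-- the logarithmic derivative of the exponential -/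
def dl (D : Derivation QB ℂ ℂ) : ℂ →+ ℂ where
  toFun x := D (Complex.exp x) / Complex.exp x
  map_zero' := by simp
  map_add' x y := by
    have hx := Complex.exp_ne_zero x
    have hy := Complex.exp_ne_zero y
    rw [Complex.exp_add, Derivation.leibniz, smul_eq_mul, smul_eq_mul]
    field_simp
    ring

theorem dl_apply (D : Derivation QB ℂ ℂ) (x : ℂ) :
    dl D x = D (Complex.exp x) / Complex.exp x := rfl

theorem dl_mul (D : Derivation QB ℂ ℂ) (r : ℚ) (x : ℂ) :
    dl D ((r : ℂ) * x) = (r : ℂ) * dl D x := by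
  have := map_rat_smul (dl D) r x
  rw [Rat.smul_def, Rat.smul_def] at this
  exact this

/-- the group -/
def GU (n : ℕ) : Type := (UU : Filter ℕ).Germ ((Fin n → ℚ) × QB)

instance (n : ℕ) : AddCommGroup (GU n) :=
  inferInstanceAs (AddCommGroup ((UU : Filter ℕ).Germ ((Fin n → ℚ) × QB)))

instance (n : ℕ) : Module ℚ (GU n) :=
  inferInstanceAs (Module ℚ ((UU : Filter ℕ).Germ ((Fin n → ℚ) × QB)))

/-- the class -/
def pg (n : ℕ) : (ℕ → (Fin n → ℚ) × QB) →ₗ[ℚ] GU n where
  toFun f := (f : (UU : Filter ℕ).Germ ((Fin n → ℚ) × QB))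
  map_add' _ _ := rfl
  map_smul' _ _ := rfl

theorem pg_surj (n : ℕ) (a : GU n) : ∃ f : ℕ → (Fin n → ℚ) × QB, a = pg n f := by
  induction a using Germ.inductionOn with
  | _ f => exact ⟨f, rfl⟩

theorem pg_eq {n : ℕ} {f g : ℕ → (Fin n → ℚ) × QB} :
    pg n f = pg n g ↔ ∀ᶠ i in (UU : Filter ℕ), f i = g i := by
  show (f : (UU : Filter ℕ).Germ ((Fin n → ℚ) × QB)) = g ↔ _
  rw [Germ.coe_eq]
  rfl

/-- the map `M` of the ultrapower -/
def MU {n : ℕ} (z : ℕ → Fin n → ℂ) : Multiplicative (GU n) →* CU where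
  toFun γ := Germ.map₂ (fun (w : Fin n → ℂ) (g : (Fin n → ℚ) × QB) => Mz w (Multiplicative.ofAdd g))
    (z : (UU : Filter ℕ).Germ (Fin n → ℂ)) (Multiplicative.toAdd γ)
  map_one' := by
    show pc (fun k => Mz (z k) (Multiplicative.ofAdd 0)) = 1
    rw [← map_one pc]
    congr 1
    funext i
    rw [ofAdd_zero, map_one, Pi.one_apply]
  map_mul' := by
    intro a b
    obtain ⟨f, rfl⟩ : ∃ f, a = Multiplicative.ofAdd (pg n f) := pg_surj n (Multiplicative.toAdd a)
    obtain ⟨g, rfl⟩ : ∃ f, b = Multiplicative.ofAdd (pg n f) := pg_surj n (Multiplicative.toAdd b)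
    show pc (fun k => Mz (z k) (Multiplicative.ofAdd (f k + g k))) =
      pc (fun k => Mz (z k) (Multiplicative.ofAdd (f k))) *
        pc (fun k => Mz (z k) (Multiplicative.ofAdd (g k)))
    rw [← map_mul]
    congr 1
    funext i
    rw [ofAdd_add, map_mul, Pi.mul_apply]

theorem MU_pg {n : ℕ} (z : ℕ → Fin n → ℂ) (f : ℕ → (Fin n → ℚ) × QB) :
    MU z (Multiplicative.ofAdd (pg n f)) = pc (fun k => Mz (z k) (Multiplicative.ofAdd (f k))) := rfl

/-- circuits -/
theorem circ {n : ℕ} (z : ℕ → Fin n → ℂ) (m : ℕ) (v : ℕ → Fin m → (Fin n → ℚ) × QB)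
    (h : ∀ k, Circuit QB (Mz (z k)) (v k)) :
    Circuit KU (MU z) (fun i => pg n (fun k => v k i)) := by
  classical
  constructor
  · rw [Fintype.not_linearIndependent_iff]
    have h1 : ∀ k, ∃ g : Fin m → QB, ∑ i, g i • Mz (z k) (Multiplicative.ofAdd (v k i)) = 0 ∧
        ∃ i, g i ≠ 0 := fun k => Fintype.not_linearIndependent_iff.1 (h k).1
    choose g hg e he using h1
    obtain ⟨i, hi⟩ := const_of e
    refine ⟨fun i => pk (fun k => g k i), ?_, i, ?_⟩
    · have h2 : pc (fun k => ∑ i, ((g k i : QB) : ℂ) * Mz (z k) (Multiplicative.ofAdd (v k i))) =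
          0 := by
        rw [pc_eq_zero]
        refine Eventually.of_forall fun k => ?_
        rw [← hg k]
        refine Finset.sum_congr rfl fun i _ => ?_
        rw [Algebra.smul_def]
        rfl
      rw [← h2, pc_sum]
      refine Finset.sum_congr rfl fun i _ => ?_
      rw [Algebra.smul_def, alg_pk, MU_pg, pc_mul]
    · rw [Ne, pk_eq_zero]
      intro h3
      obtain ⟨k, hk1, hk2⟩ := (h3.and hi).exists
      exact he k (hk2 ▸ hk1)
  · intro j
    rw [Fintype.linearIndependent_iff]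
    intro c hc i
    choose c' hc' using fun i => pk_surj (c i)
    have h1 : pc (fun k => ∑ i : {i : Fin m // i ≠ j}, ((c' i k : QB) : ℂ) *
        Mz (z k) (Multiplicative.ofAdd (v k i))) = 0 := by
      rw [pc_sum, ← hc]
      refine Finset.sum_congr rfl fun i _ => ?_
      rw [Algebra.smul_def, hc' i, alg_pk, MU_pg, pc_mul]
    rw [pc_eq_zero] at h1
    rw [hc' i, pk_eq_zero]
    filter_upwards [h1] with k hk
    refine Fintype.linearIndependent_iff.1 ((h k).2 j) (fun i => c' i k) ?_ i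
    rw [← hk]
    refine Finset.sum_congr rfl fun i _ => ?_
    rw [Algebra.smul_def]
    rfl

/-- constants -/
theorem consts {n : ℕ} (z : ℕ → Fin n → ℂ) (g : ℕ → (Fin n → ℚ) × QB)
    (h : ∃ a : KU, MU z (Multiplicative.ofAdd (pg n g)) = algebraMap KU CU a) (K : ℕ) :
    ∃ k ≥ K, IsAlgebraic ℚ (Mz (z k) (Multiplicative.ofAdd (g k))) := by
  obtain ⟨a, ha⟩ := h
  obtain ⟨a, rfl⟩ := pk_surj a
  rw [MU_pg, alg_pk, pc_eq] at ha
  have h1 : ∀ᶠ k in (UU : Filter ℕ), K ≤ k := by
    have h2 : (UU : Filter ℕ) ≤ atTop := by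
      rw [← Nat.cofinite_eq_atTop]
      exact hyperfilter_le_cofinite
    exact h2 (eventually_ge_atTop K)
  obtain ⟨k, hk1, hk2⟩ := (ha.and h1).exists
  refine ⟨k, hk2, ?_⟩
  rw [hk1]
  exact mem_algebraicClosure_iff.1 (a k).2

/-- the derivations -/
def Del : Set (Derivation KU CU CU) := Set.range dg

theorem exists_der_one {x : ℂ} (hx : x ∉ QB) : ∃ D : Derivation QB ℂ ℂ, D x = 1 := by
  have h1 : AlgebraicIndependent QB (fun _ : Unit => x) := by
    rw [algebraicIndependent_unique_type_iff]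
    intro h
    apply hx
    have h2 : IsAlgebraic QB x := h
    rw [mem_algebraicClosure_iff]
    have : Algebra.IsAlgebraic ℚ QB := algebraicClosure.isAlgebraic ℚ ℂ
    exact h2.restrictScalars ℚ
  obtain ⟨D, hD⟩ := Pool.Agent.H135R2.VS.exists_der h1 (fun _ => 1)
  exact ⟨D, hD ()⟩

theorem kernel (x : CU) (hx : ∀ D ∈ Del, D x = 0) : ∃ a : KU, x = algebraMap KU CU a := by
  classical
  obtain ⟨x, rfl⟩ := pc_surj x
  by_cases h : ∀ᶠ k in (UU : Filter ℕ), x k ∈ QB
  · refine ⟨pk (fun k => if h : x k ∈ QB then ⟨x k, h⟩ else 0), ?_⟩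
    rw [alg_pk, pc_eq]
    filter_upwards [h] with k hk
    rw [dif_pos hk]
  · exfalso
    rw [← Ultrafilter.eventually_not] at h
    let D : ℕ → Derivation QB ℂ ℂ := fun k =>
      if h : x k ∉ QB then (exists_der_one h).choose else 0
    have h1 := hx (dg D) ⟨D, rfl⟩
    rw [dg_pc, pc_eq_zero] at h1
    obtain ⟨k, hk1, hk2⟩ := (h1.and h).exists
    have h2 : D k (x k) = 1 := by
      simp only [D]
      rw [dif_pos hk2]
      exact (exists_der_one hk2).choose_spec
    rw [h2] at hk1
    exact one_ne_zero hk1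

/-- the logarithmic derivatives -/
theorem logder {n : ℕ} (z : ℕ → Fin n → ℂ) (t : ℕ) (g : Fin t → GU n) :
    ∃ (s : ℕ) (r : Fin t → Fin n → KU) (q : Fin t → Fin s → KU)
      (lam : Fin n → Derivation KU CU CU → CU) (mu : Fin s → Derivation KU CU CU → CU),
      (∀ D ∈ Del, ∀ i, D (MU z (Multiplicative.ofAdd (g i))) / MU z (Multiplicative.ofAdd (g i)) =
        ∑ j, algebraMap KU CU (r i j) * lam j D + ∑ l, algebraMap KU CU (q i l) * mu l D) ∧
      ∀ l, ∃ D ∈ Del, ∀ l', mu l' D = if l' = l then 1 else 0 := by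
  classical
  choose g' hg' using fun i => pg_surj n (g i)
  -- a basis of the span of the algebraic parts
  have h1 : ∀ k, ∃ b : Set (Fin t), LinearIndepOn ℚ (fun i => (g' i k).2) b ∧
      ∀ i, (g' i k).2 ∈ Submodule.span ℚ ((fun i => (g' i k).2) '' b) := by
    intro k
    obtain ⟨b, _, _, h2, h3⟩ := exists_linearIndepOn_extension
      (K := ℚ) (v := fun i => (g' i k).2) (s := (∅ : Set (Fin t))) (t := Set.univ)
      (linearIndepOn_empty _ _) (Set.empty_subset _)
    exact ⟨b, h3, fun i => h2 ⟨i, Set.mem_univ _, rfl⟩⟩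
  choose b hb1 hb2 using h1
  obtain ⟨B, hB⟩ := const_of b
  let s := Fintype.card B
  let e : Fin s ≃ B := (Fintype.equivFin B).symm
  have h2 : ∀ k i, ∃ q : Fin s → ℚ, b k = B → (g' i k).2 = ∑ l, q l • (g' (e l) k).2 := by
    intro k i
    by_cases h : b k = B
    · have h3 := hb2 k i
      rw [h] at h3
      have h4 : (fun i => (g' i k).2) '' B = Set.range (fun l : Fin s => (g' (e l) k).2) := by
        ext x
        constructor
        · rintro ⟨j, hj, rfl⟩
          exact ⟨e.symm ⟨j, hj⟩, by simp⟩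
        · rintro ⟨l, rfl⟩
          exact ⟨(e l).1, (e l).2, rfl⟩
      rw [h4, Submodule.mem_span_range_iff_exists_fun] at h3
      obtain ⟨q, hq⟩ := h3
      exact ⟨q, fun _ => hq.symm⟩
    · exact ⟨0, fun h' => absurd h' h⟩
  choose q hq using h2
  let Z : Fin n → CU := fun j => pc (fun k => Complex.exp (z k j))
  let E : Fin s → CU := fun l => pc (fun k => Complex.exp (((g' (e l) k).2 : QB) : ℂ))
  refine ⟨s, fun i j => pk (fun k => (((g' i k).1 j : ℚ) : QB)),
    fun i l => pk (fun k => ((q k i l : ℚ) : QB)), fun j D => D (Z j) / Z j,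
    fun l D => D (E l) / E l, ?_, ?_⟩
  · rintro _ ⟨D, rfl⟩ i
    rw [hg' i, MU_pg, dg_pc, ← pc_div]
    have h3 : ∀ j, dg D (Z j) / Z j = pc (fun k => dl (D k) (z k j)) := by
      intro j
      simp only [Z]
      rw [dg_pc, ← pc_div]
      rfl
    have h4 : ∀ l, dg D (E l) / E l = pc (fun k => dl (D k) ((g' (e l) k).2 : QB)) := by
      intro l
      simp only [E]
      rw [dg_pc, ← pc_div]
      rfl
    simp only [h3, h4, alg_pk]
    simp only [← pc_mul]
    rw [← pc_sum, ← pc_sum, ← pc_add, pc_eq]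
    filter_upwards [hB] with k hk
    have h5 : D k (Mz (z k) (Multiplicative.ofAdd (g' i k))) /
        Mz (z k) (Multiplicative.ofAdd (g' i k)) =
        dl (D k) (∑ j, (((g' i k).1 j : ℚ) : ℂ) * z k j + (((g' i k).2 : QB) : ℂ)) := rfl
    rw [h5, map_add, map_sum]
    congr 1
    · refine Finset.sum_congr rfl fun j _ => ?_
      rw [dl_mul]
      norm_cast
    · have h6 := congrArg (fun x : QB => (x : ℂ)) (hq k i hk)
      rw [h6]
      push_cast
      rw [map_sum]
      refine Finset.sum_congr rfl fun l _ => ?_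
      rw [Rat.smul_def, dl_mul]
  · intro l
    have h3 : ∀ k, ∃ D : Derivation QB ℂ ℂ, b k = B → ∀ l',
        D (Complex.exp (((g' (e l') k).2 : QB) : ℂ)) =
          if l' = l then Complex.exp (((g' (e l') k).2 : QB) : ℂ) else 0 := by
      intro k
      by_cases h : b k = B
      · have h4 : LinearIndependent ℚ (fun l : Fin s => (((g' (e l) k).2 : QB) : ℂ)) := by
          have h5 := hb1 k
          rw [h] at h5
          have h6 : LinearIndependent ℚ (fun l : Fin s => (g' (e l) k).2) :=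
            LinearIndependent.comp h5 e e.injective
          exact h6.map' (QB.val.toLinearMap) (LinearMap.ker_eq_bot.2 Subtype.val_injective)
        have h7 := Pool.Agent.H297R2.exp_algebraicIndependent _
          (fun l => mem_algebraicClosure_iff.1 (g' (e l) k).2.2) h4
        obtain ⟨D, hD⟩ := Pool.Agent.H135R2.VS.exists_der h7
          (fun l' => if l' = l then Complex.exp (((g' (e l') k).2 : QB) : ℂ) else 0)
        exact ⟨D, fun _ => hD⟩
      · exact ⟨0, fun h' => absurd h' h⟩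
    choose D hD using h3
    refine ⟨dg D, ⟨D, rfl⟩, fun l' => ?_⟩
    show dg D (E l') / E l' = _
    simp only [E]
    rw [dg_pc, ← pc_div]
    by_cases h : l' = l
    · rw [if_pos h, ← map_one pc, pc_eq]
      filter_upwards [hB] with k hk
      rw [hD k hk, if_pos h, div_self (Complex.exp_ne_zero _)]
      rfl
    · rw [if_neg h, pc_eq_zero]
      filter_upwards [hB] with k hk
      rw [hD k hk, if_neg h, zero_div]

theorem ult : UltStm := by
  intro n z
  refine ⟨KU, CU, GU n, inferInstance, inferInstance, inferInstance, inferInstance, inferInstance,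
    inferInstance, inferInstance, inferInstance, MU z, pg n, Del, ?_, circ z, ?_, consts z, kernel,
    logder z⟩
  · intro a
    obtain ⟨f, hf⟩ := pg_surj n a
    exact ⟨f, hf.symm⟩
  · intro m v e
    obtain ⟨i, hi⟩ := const_of e
    refine ⟨i, ?_⟩
    rw [pg_eq]
    filter_upwards [hi] with k hk
    rw [hk]

end

end Pool.Agent.W2helper3.FR
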